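import Pool.Agent.H73.CEL.BSAb

/-!
# Row BSA: the first blocks for small parameter
-/

set_option autoImplicit false

open MeasureTheory ProbabilityTheory Filter Topology Pool.Agent.H95 Pool.Agent.H95.Cop
open Pool.Agent.H98.CE

namespace Pool.Agent.H73.CEL

lemma tG {d ϑ η : ℝ} (hϑ : 0 < ϑ) (hη : 0 < η) (J j : ℕ) :
    Tendsto (fun α : ℝ => GG d ϑ η J j α (NN α)) (𝓝[>] 0) (𝓝 (1 / ((j : ℝ) + 2))) := by
  have ty : Tendsto (fun α : ℝ => 2 * ϑ / η * (α ^ 2 * ((NN α : ℝ) + (NN α : ℝ) ^ 2)))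
      (𝓝[>] 0) (𝓝 0) := by
    have := tA.const_mul (2 * ϑ / η)
    rwa [mul_zero] at this
  have t1 : Tendsto (fun α : ℝ => (1 - 2 * ϑ / η * (α ^ 2 * ((NN α : ℝ) + (NN α : ℝ) ^ 2))) /
      ((j : ℝ) + 2 + 2 * ϑ / η * (α ^ 2 * ((NN α : ℝ) + (NN α : ℝ) ^ 2)))) (𝓝[>] 0)
      (𝓝 (1 / ((j : ℝ) + 2))) := by
    have a := ty.const_sub 1
    have b := ty.const_add ((j : ℝ) + 2)
    rw [sub_zero] at a
    rw [add_zero] at b
    exact a.div b (by positivity)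
  have t2 := (tz (c := 2 * ϑ / η) (by positivity) J).const_sub 1
  rw [sub_zero] at t2
  have t5 : Tendsto (fun α : ℝ => Real.exp (-(2 * ϑ * d *
      (α ^ 2 * ((NN α : ℝ) + (NN α : ℝ) ^ 2))))) (𝓝[>] 0) (𝓝 1) := by
    have := (tA.const_mul (2 * ϑ * d)).neg.rexp
    rwa [mul_zero, neg_zero, Real.exp_zero] at this
  have t := ((((t1.mul t2).mul tN1).mul tw).mul t5).mul (tq hϑ)
  rw [mul_one, mul_one, mul_one, mul_one, mul_one] at t
  exact t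

lemma sizes {α ϑ N B : ℝ} (hα : 0 < α) (hϑ : 0 < ϑ) (hϑ2 : ϑ ≤ 1 / 2) (hN : 1 ≤ N)
    (hN2 : α * N ^ 2 ≤ 4) (hB : 0 < B) (h1 : 1024 * B ≤ 1 / α) (h2 : 568 ≤ 1 / α) :
    N ^ 3 * (N + N ^ 2) ≤ (1 / α) ^ 6 ∧ (N ^ 3) ^ 2 * (N ^ 2) ^ 2 * B ≤ (1 / α) ^ 6 ∧
    (N ^ 3) ^ 2 * (N ^ 2) ^ 4 * Real.exp (8 * ϑ * (N ^ 3 * (N + N ^ 2))) ≤
      Real.exp ((1 / α) ^ 6) := by
  obtain ⟨u, hu⟩ : ∃ u, u = 1 / α := ⟨_, rfl⟩
  rw [← hu] at h1 h2 ⊢
  have hu0 : 0 < u := by linarith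
  have hN0 : 0 < N := by linarith
  have hN3 : N ^ 2 ≤ 4 * u := by
    have : α * u = 1 := by rw [hu]; field_simp
    have h3 : N ^ 2 * (α * u) ≤ 4 * u := by nlinarith
    rwa [this, mul_one] at h3
  have hNN : N ≤ N ^ 2 := le_self_pow₀ hN (by norm_num)
  have a1 : N ^ 3 * (N + N ^ 2) ≤ 2 * (N ^ 2) ^ 3 := by
    have b1 : N + N ^ 2 ≤ 2 * N ^ 2 := by linarith
    have b2 : N ^ 3 ≤ (N ^ 2) ^ 2 := by
      have : N ^ 3 * 1 ≤ N ^ 3 * N := mul_le_mul_of_nonneg_left hN (by positivity)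
      calc N ^ 3 = N ^ 3 * 1 := (mul_one _).symm
        _ ≤ N ^ 3 * N := this
        _ = (N ^ 2) ^ 2 := by ring
    calc N ^ 3 * (N + N ^ 2) ≤ (N ^ 2) ^ 2 * (2 * N ^ 2) :=
          mul_le_mul b2 b1 (by positivity) (by positivity)
      _ = 2 * (N ^ 2) ^ 3 := by ring
  have a2 : (N ^ 2) ^ 3 ≤ (4 * u) ^ 3 := pow_le_pow_left₀ (by positivity) hN3 3
  have a3 : N ^ 3 * (N + N ^ 2) ≤ 128 * u ^ 3 := by
    calc N ^ 3 * (N + N ^ 2) ≤ 2 * (N ^ 2) ^ 3 := a1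
      _ ≤ 2 * (4 * u) ^ 3 := by linarith
      _ = 128 * u ^ 3 := by ring
  have hu1 : 1 ≤ u := by linarith
  have hu46 : u ^ 4 ≤ u ^ 6 := pow_le_pow_right₀ hu1 (by norm_num)
  have hu3 : 0 < u ^ 3 := by positivity
  have hu34 : 568 * u ^ 3 ≤ u ^ 4 := by
    calc 568 * u ^ 3 ≤ u * u ^ 3 := mul_le_mul_of_nonneg_right h2 hu3.le
      _ = u ^ 4 := by ring
  refine ⟨by linarith, ?_, ?_⟩
  · calc (N ^ 3) ^ 2 * (N ^ 2) ^ 2 * B = (N ^ 2) ^ 5 * B := by ring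
      _ ≤ (4 * u) ^ 5 * B := by
          apply mul_le_mul_of_nonneg_right _ hB.le
          exact pow_le_pow_left₀ (by positivity) hN3 5
      _ = (1024 * B) * u ^ 5 := by ring
      _ ≤ u * u ^ 5 := mul_le_mul_of_nonneg_right h1 (by positivity)
      _ = u ^ 6 := by ring
  · have c1 : (N ^ 3) ^ 2 * (N ^ 2) ^ 4 ≤ Real.exp (14 * N) := by
      have : N ≤ Real.exp N := by linarith [Real.add_one_le_exp N]
      calc (N ^ 3) ^ 2 * (N ^ 2) ^ 4 = N ^ 14 := by ring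
        _ ≤ Real.exp N ^ 14 := pow_le_pow_left₀ hN0.le this 14
        _ = Real.exp (14 * N) := by rw [← Real.exp_nat_mul]; norm_num
    calc (N ^ 3) ^ 2 * (N ^ 2) ^ 4 * Real.exp (8 * ϑ * (N ^ 3 * (N + N ^ 2)))
        ≤ Real.exp (14 * N) * Real.exp (4 * (128 * u ^ 3)) := by
          apply mul_le_mul c1 _ (by positivity) (by positivity)
          apply Real.exp_le_exp.2
          exact mul_le_mul (by linarith) a3 (by positivity) (by norm_num)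
      _ = Real.exp (14 * N + 4 * (128 * u ^ 3)) := (Real.exp_add _ _).symm
      _ ≤ _ := by
          apply Real.exp_le_exp.2
          have : u ≤ u ^ 3 := le_self_pow₀ hu1 (by norm_num)
          linarith

theorem pf_BSA (hBLK : T_BLK) (hOMN : T_OMN) (hAS1 : T_AS1) : T_BSA := by
  intro d ϑ s e1 η e J hd hϑ hϑ2 hs hsJ he1 he1' hη he hee
  refine ⟨6, ?_⟩
  have hB0 : 0 < (2 + Real.exp (2 * ϑ)) ^ 2 := by positivity
  have hG : ∀ j ∈ Finset.Icc 3 J, ∀ᶠ α in 𝓝[>] (0 : ℝ),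
      e / 2 * (Real.exp (-d * (j + 2) * η) / (j + 2)) ≤
      e1 / 2 * (Real.exp (-4 * ϑ) * (Real.exp (-d * (j + 2) * η) *
        GG d ϑ η J j α (NN α))) - η * (2 + Real.exp (2 * ϑ)) ^ 2 / (2 * ϑ) *
        ((1 / α) ^ 3 * Real.exp (-(s * η / 4 / α ^ 2))) := by
    intro j _
    have h2 := (((tG (d := d) hϑ hη J j).const_mul (Real.exp (-d * (j + 2) * η))).const_mul
      (Real.exp (-4 * ϑ))).const_mul (e1 / 2)
    have h4 := h2.sub (terr hAS1 (b := s * η / 4)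
      (C := η * (2 + Real.exp (2 * ϑ)) ^ 2 / (2 * ϑ)) (by positivity) (by positivity))
    have h3 : e / 2 * (Real.exp (-d * (j + 2) * η) / (j + 2)) <
        e1 / 2 * (Real.exp (-4 * ϑ) * (Real.exp (-d * (j + 2) * η) *
          (1 / ((j : ℝ) + 2)))) - 0 := by
      have hX : 0 < Real.exp (-d * (j + 2) * η) / ((j : ℝ) + 2) := by positivity
      have e1' : e1 / 2 * (Real.exp (-4 * ϑ) * (Real.exp (-d * (j + 2) * η) *
          (1 / ((j : ℝ) + 2)))) - 0 = e1 * Real.exp (-4 * ϑ) / 2 *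
          (Real.exp (-d * (j + 2) * η) / (j + 2)) := by ring
      rw [e1']
      exact mul_lt_mul_of_pos_right (by linarith) hX
    exact (h4.eventually (eventually_gt_nhds h3)).mono fun α h => h.le
  have hG' := (Filter.eventually_all_finset (Finset.Icc 3 J)).2 hG
  have hz := (tz (c := 2 * ϑ / η) (by positivity) J).eventually
    (eventually_lt_nhds (zero_lt_one))
  have ty := tA.const_mul (2 * ϑ / η)
  rw [mul_zero] at ty
  have hy := ty.eventually (eventually_lt_nhds (show (0 : ℝ) < 1 / 4 by norm_num))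
  have hq := (tq hϑ).eventually (eventually_gt_nhds (zero_lt_one))
  have hb1 := (hAS1 0 (1024 * (2 + Real.exp (2 * ϑ)) ^ 2) 1 (by positivity) one_pos).2.2.2
  have hb2 := (hAS1 0 568 1 (by positivity) one_pos).2.2.2
  have hJ : (0 : ℝ) < 1 / (4 * (J + 1)) := by positivity
  filter_upwards [ev_pos, ev_lt (show (0 : ℝ) < 1 / 16 by norm_num), ev_lt hJ, hG', hz, hy, hq,
    hb1, hb2] with α h0 h16 hJ1 hG1 hz1 hy1 hq1 hb11 hb21
  intro K ν ℓ hHY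
  obtain ⟨hν, hint, hℓ, hHK, hMM⟩ := hHY
  have h1 : α < 1 := by linarith
  obtain ⟨a, b, c⟩ := NN_bd h0 h1
  obtain ⟨N, hN⟩ : ∃ N : ℕ, N = NN α := ⟨_, rfl⟩
  rw [← hN] at a b c hG1 hz1 hy1 hq1
  have hN1 : 1 ≤ N := by exact_mod_cast a
  have hN0 : (0 : ℝ) < N := by linarith
  have hyy : 2 * ϑ / η * (α ^ 2 * ((N : ℝ) + (N : ℝ) ^ 2)) =
      2 * ϑ * ((N : ℝ) + (N : ℝ) ^ 2) / (η / α ^ 2) := by
    field_simp
  rw [hyy] at hz1 hy1
  have hy0 : 0 < 2 * ϑ * ((N : ℝ) + (N : ℝ) ^ 2) / (η / α ^ 2) := by positivity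
  have hαJ : α * (J + 1) ≤ 1 / 4 := by
    have := hJ1.le
    rw [le_div_iff₀ (by positivity)] at this
    linarith
  have hcore : ∀ j : ℕ, 3 ≤ j → j ≤ J → _ := fun j h3 hj =>
    core (e := e) (d := d) (B := (2 + Real.exp (2 * ϑ)) ^ 2) (j := j) hϑ hs hsJ he he1 he1' hη h0
      h16.le hαJ a c rfl rfl hy1.le hz1 hq1.le hj (hG1 j (Finset.mem_Icc.2 ⟨h3, hj⟩))
  obtain ⟨n1, n2, n3⟩ := sizes h0 hϑ hϑ2 a c hB0 hb11.2 hb21.2
  have hs4 : s < 1 / (1 + α) := by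
    have h2 : s * 4 ≤ 1 := by
      have hJ0 : (0 : ℝ) ≤ J := Nat.cast_nonneg _
      nlinarith
    rw [lt_div_iff₀ (by positivity)]
    nlinarith
  have hb := hBLK K ν hint ℓ α (η / α ^ 2) (e1 * α / 2) s ϑ (d * α ^ 2) hℓ h0 h1 (by positivity)
    (by nlinarith) hHK hs hs4 (by positivity) hϑ (by positivity) hMM N (N ^ 2) (N ^ 3) J
    (2 * ϑ * ((N + N ^ 2 : ℕ) : ℝ) / (η / α ^ 2)) hN1 (Nat.one_le_pow _ _ hN1) rfl
    (by push_cast; linarith)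
    (by
      push_cast
      have h2 : ((J : ℝ) + 2) < 1 * (2 * ϑ * ((N : ℝ) + (N : ℝ) ^ 2) / (η / α ^ 2) *
          (N : ℝ) ^ 3) := (div_lt_iff₀ (by positivity)).1 hz1
      rw [div_le_iff₀ hy0]
      linarith)
    (fun j => α / 2 * t0 d η e J j)
    (fun j _ hj => by
      have : ¬ (3 ≤ j ∧ j ≤ J) := by omega
      simp only [t0, if_neg this, mul_zero, le_refl])
    (fun j h3 hj => by
      have := (hcore j h3 hj).2
      simp only [t0, if_pos (And.intro h3 hj)]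
      push_cast
      exact this)
    (fun j h3 hj => by
      have := (hcore j h3 hj).1
      push_cast
      exact this)
    (by push_cast; exact hq1.le)
  refine ⟨N ^ 3 * (N + N ^ 2), Nat.mul_pos (Nat.pow_pos hN1) (by omega), ?_, ?_⟩
  · push_cast; exact n1
  · exact hOMN K ν ℓ α _ _ J J _ _ _ _ _ _ hb le_rfl (fun _ _ => le_rfl)
      (by push_cast; exact n2) (by push_cast; exact n3)

end Pool.Agent.H73.CEL
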