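import Pool.Agent.H98.CE.Targets

/-!
# Row BSA: the first blocks for small parameter, lemmas
-/

set_option autoImplicit false

open MeasureTheory ProbabilityTheory Filter Topology Pool.Agent.H95 Pool.Agent.H95.Cop
open Pool.Agent.H98.CE

namespace Pool.Agent.H73.CEL

/-- the number of measured cells -/
noncomputable def NN (α : ℝ) : ℕ := ⌈1 / Real.sqrt α⌉₊

lemma NN_bd {α : ℝ} (h0 : 0 < α) (h1 : α < 1) :
    1 ≤ (NN α : ℝ) ∧ 1 ≤ α * (NN α : ℝ) ^ 2 ∧ α * (NN α : ℝ) ^ 2 ≤ 4 := by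
  have hs : 0 < Real.sqrt α := Real.sqrt_pos.2 h0
  have hs2 : Real.sqrt α ^ 2 = α := Real.sq_sqrt h0.le
  have hs1 : Real.sqrt α ≤ 1 := by
    rw [← Real.sqrt_one]; exact Real.sqrt_le_sqrt h1.le
  have a : 1 / Real.sqrt α ≤ (NN α : ℝ) := Nat.le_ceil _
  have b : (NN α : ℝ) < 1 / Real.sqrt α + 1 := Nat.ceil_lt_add_one (by positivity)
  have c : 1 ≤ 1 / Real.sqrt α := by rw [le_div_iff₀ hs]; linarith
  have d : (NN α : ℝ) ≤ 2 * (1 / Real.sqrt α) := by linarith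
  have e : α * (1 / Real.sqrt α) ^ 2 = 1 := by
    rw [div_pow, hs2]; field_simp
  refine ⟨c.trans a, ?_, ?_⟩
  · calc (1 : ℝ) = α * (1 / Real.sqrt α) ^ 2 := e.symm
      _ ≤ _ := mul_le_mul_of_nonneg_left (pow_le_pow_left₀ (by positivity) a 2) h0.le
  · calc α * (NN α : ℝ) ^ 2 ≤ α * (2 * (1 / Real.sqrt α)) ^ 2 :=
          mul_le_mul_of_nonneg_left (pow_le_pow_left₀ (Nat.cast_nonneg _) d 2) h0.le
      _ = 4 := by rw [mul_pow]; linarith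

lemma ev_pos : ∀ᶠ α in 𝓝[>] (0 : ℝ), 0 < α := eventually_mem_nhdsWithin

lemma ev_lt {b : ℝ} (hb : 0 < b) : ∀ᶠ α in 𝓝[>] (0 : ℝ), α < b :=
  (Iio_mem_nhds hb : Set.Iio b ∈ 𝓝 (0 : ℝ)) |> fun h => mem_nhdsWithin_of_mem_nhds h

lemma tN : Tendsto (fun α : ℝ => (NN α : ℝ)) (𝓝[>] 0) atTop := by
  have h1 : Tendsto Real.sqrt (𝓝[>] 0) (𝓝[>] 0) := by
    rw [tendsto_nhdsWithin_iff]
    refine ⟨(Real.continuous_sqrt.tendsto' 0 0 Real.sqrt_zero).mono_left nhdsWithin_le_nhds, ?_⟩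
    filter_upwards [ev_pos] with α hα
    exact Real.sqrt_pos.2 hα
  have h2 := tendsto_inv_nhdsGT_zero.comp h1
  refine tendsto_atTop_mono (fun α => ?_) h2
  show (Real.sqrt α)⁻¹ ≤ (NN α : ℝ)
  rw [← one_div]
  exact Nat.le_ceil _

lemma tA : Tendsto (fun α : ℝ => α ^ 2 * ((NN α : ℝ) + (NN α : ℝ) ^ 2)) (𝓝[>] 0) (𝓝 0) := by
  have h8 : Tendsto (fun α : ℝ => 8 * α) (𝓝[>] 0) (𝓝 0) := by
    have : Tendsto (fun α : ℝ => 8 * α) (𝓝 0) (𝓝 (8 * 0)) :=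
      (continuous_const.mul continuous_id).tendsto 0
    rw [mul_zero] at this
    exact this.mono_left nhdsWithin_le_nhds
  refine squeeze_zero' ?_ ?_ h8
  · filter_upwards [ev_pos] with α hα
    positivity
  · filter_upwards [ev_pos, ev_lt one_pos] with α h0 h1
    obtain ⟨a, b, c⟩ := NN_bd h0 h1
    have : (NN α : ℝ) ≤ (NN α : ℝ) ^ 2 := le_self_pow₀ a (by norm_num)
    calc α ^ 2 * ((NN α : ℝ) + (NN α : ℝ) ^ 2) ≤ α ^ 2 * (2 * (NN α : ℝ) ^ 2) :=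
          mul_le_mul_of_nonneg_left (by linarith) (by positivity)
      _ = 2 * α * (α * (NN α : ℝ) ^ 2) := by ring
      _ ≤ 2 * α * 4 := mul_le_mul_of_nonneg_left c (by positivity)
      _ = 8 * α := by ring

lemma tz {c : ℝ} (hc : 0 < c) (J : ℕ) : Tendsto (fun α : ℝ => ((J : ℝ) + 2) /
    (c * (α ^ 2 * ((NN α : ℝ) + (NN α : ℝ) ^ 2)) * (NN α : ℝ) ^ 3)) (𝓝[>] 0) (𝓝 0) := by
  have h1 : Tendsto (fun α : ℝ => ((J : ℝ) + 2) / c / (NN α : ℝ)) (𝓝[>] 0) (𝓝 0) :=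
    tN.const_div_atTop _
  refine squeeze_zero' ?_ ?_ h1
  · filter_upwards [ev_pos] with α hα
    positivity
  · filter_upwards [ev_pos, ev_lt one_pos] with α h0 h1
    obtain ⟨a, b, -⟩ := NN_bd h0 h1
    have hN : (0 : ℝ) < NN α := by linarith
    rw [div_div]
    apply div_le_div_of_nonneg_left (by positivity) (by positivity)
    have e1 : 1 ≤ (α * (NN α : ℝ) ^ 2) ^ 2 := one_le_pow₀ b
    calc c * (NN α : ℝ) = c * (NN α : ℝ) * 1 := (mul_one _).symm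
      _ ≤ c * (NN α : ℝ) * (α * (NN α : ℝ) ^ 2) ^ 2 := mul_le_mul_of_nonneg_left e1 (by positivity)
      _ = c * (α ^ 2 * (NN α : ℝ) ^ 2) * (NN α : ℝ) ^ 3 := by ring
      _ ≤ c * (α ^ 2 * ((NN α : ℝ) + (NN α : ℝ) ^ 2)) * (NN α : ℝ) ^ 3 := by
          gcongr
          linarith

lemma tN1 : Tendsto (fun α : ℝ => ((NN α : ℝ) / ((NN α : ℝ) + 1)) ^ 2) (𝓝[>] 0) (𝓝 1) := by
  have h1 : Tendsto (fun α : ℝ => 1 - 1 / ((NN α : ℝ) + 1)) (𝓝[>] 0) (𝓝 (1 - 0)) :=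
    tendsto_const_nhds.sub ((tN.atTop_add tendsto_const_nhds).const_div_atTop _)
  have h2 := h1.pow 2
  rw [sub_zero, one_pow] at h2
  refine h2.congr fun α => ?_
  have : (0 : ℝ) < (NN α : ℝ) + 1 := by positivity
  congr 1
  field_simp
  ring

lemma tw : Tendsto (fun α : ℝ => Real.exp (3 * (Real.log α * α))) (𝓝[>] 0) (𝓝 1) := by
  have h1 := tendsto_log_mul_rpow_nhdsGT_zero (r := 1) one_pos
  simp only [Real.rpow_one] at h1
  have h2 := (h1.const_mul 3).rexp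
  rwa [mul_zero, Real.exp_zero] at h2

lemma tq {ϑ : ℝ} (hϑ : 0 < ϑ) : Tendsto (fun α : ℝ => 1 - (NN α : ℝ) ^ 3 *
    Real.exp (-ϑ * (NN α : ℝ) / 4)) (𝓝[>] 0) (𝓝 1) := by
  have h1 : Tendsto (fun α : ℝ => ϑ / 4 * (NN α : ℝ)) (𝓝[>] 0) atTop :=
    tN.const_mul_atTop (by positivity)
  have h2 := (Real.tendsto_pow_mul_exp_neg_atTop_nhds_zero 3).comp h1
  have h3 := (h2.const_mul ((4 / ϑ) ^ 3)).const_sub 1
  rw [mul_zero, sub_zero] at h3
  refine h3.congr fun α => ?_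
  show 1 - (4 / ϑ) ^ 3 * ((ϑ / 4 * (NN α : ℝ)) ^ 3 * Real.exp (-(ϑ / 4 * (NN α : ℝ)))) = _
  have e1 : -(ϑ / 4 * (NN α : ℝ)) = -ϑ * (NN α : ℝ) / 4 := by ring
  have e2 : (4 / ϑ) ^ 3 * (ϑ / 4 * (NN α : ℝ)) ^ 3 = (NN α : ℝ) ^ 3 := by
    rw [← mul_pow]
    congr 1
    field_simp
  rw [e1, ← mul_assoc, e2]

lemma terr (hAS1 : T_AS1) {b C : ℝ} (hb : 0 < b) (hC : 0 < C) :
    Tendsto (fun α : ℝ => C * ((1 / α) ^ 3 * Real.exp (-(b / α ^ 2)))) (𝓝[>] 0) (𝓝 0) := by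
  rw [Metric.tendsto_nhds]
  intro ε hε
  filter_upwards [(hAS1 3 (ε / (2 * C)) b (by positivity) hb).2.1, ev_pos] with α h1 h0
  rw [Real.dist_eq, sub_zero, abs_of_nonneg (by positivity)]
  calc C * ((1 / α) ^ 3 * Real.exp (-(b / α ^ 2))) ≤ C * (ε / (2 * C)) :=
        mul_le_mul_of_nonneg_left h1 hC.le
    _ = ε / 2 := by field_simp
    _ < ε := by linarith

lemma core_A {α N : ℝ} (hα : 0 < α) (hα16 : α ≤ 1 / 16) (hN : 1 ≤ N) (hN2 : α * N ^ 2 ≤ 4) :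
    N ^ 4 * Real.exp (3 * (Real.log α * α)) ≤ ((N ^ 2) ^ 2) ^ (1 / (1 + α)) := by
  have hN0 : 0 < N := by linarith
  have e0 : (N ^ 2) ^ 2 = N ^ 4 := by ring
  have hN4 : (0 : ℝ) < N ^ 4 := by positivity
  have h1 : 0 ≤ Real.log (N ^ 4) := Real.log_nonneg (one_le_pow₀ hN)
  have h2 : Real.log (N ^ 4) + 3 * Real.log α ≤ 0 := by
    have : N ^ 4 * α ^ 3 ≤ 1 := by
      calc N ^ 4 * α ^ 3 = (α * N ^ 2) ^ 2 * α := by ring
        _ ≤ 4 ^ 2 * α := by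
            apply mul_le_mul_of_nonneg_right _ hα.le
            exact pow_le_pow_left₀ (by positivity) hN2 2
        _ ≤ 1 := by linarith
    have h3 := Real.log_nonpos (by positivity) this
    rw [Real.log_mul hN4.ne' (by positivity), Real.log_pow α 3] at h3
    push_cast at h3
    exact h3
  rw [e0, Real.rpow_def_of_pos hN4]
  calc N ^ 4 * Real.exp (3 * (Real.log α * α))
      = Real.exp (Real.log (N ^ 4)) * Real.exp (3 * (Real.log α * α)) := by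
        rw [Real.exp_log hN4]
    _ = Real.exp (Real.log (N ^ 4) + 3 * (Real.log α * α)) := (Real.exp_add _ _).symm
    _ ≤ _ := by
        apply Real.exp_le_exp.2
        have e1 : Real.log (N ^ 4) * (1 / (1 + α)) = Real.log (N ^ 4) -
            Real.log (N ^ 4) * (α / (1 + α)) := by
          have : (1 : ℝ) + α ≠ 0 := by positivity
          field_simp
          ring
        rw [e1]
        have h3 : α / (1 + α) ≤ α := div_le_self hα.le (by linarith)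
        have h4 := mul_le_mul_of_nonneg_left h3 h1
        nlinarith

lemma core_B {α ϑ s η N P y : ℝ} {J j : ℕ} (hϑ : 0 < ϑ) (hs : 0 < s)
    (hsJ : s * (4 * (J + 1)) ≤ 1) (hη : 0 < η) (hα : 0 < α)
    (hαJ : α * (J + 1) ≤ 1 / 4) (hN : 1 ≤ N) (hP : 0 < P)
    (hy : y = 2 * ϑ * P / (η / α ^ 2)) (hy4 : y ≤ 1 / 4) (hjJ : j ≤ J) :
    Real.exp (s * (η / α ^ 2 * j)) * ((N ^ 2) ^ 2 * (2 + Real.exp (2 * ϑ)) ^ 2 *
      Real.exp (-(1 / (1 + α) - s) * s * ((j + 1) * (η / α ^ 2) - 2 * ϑ * P))) ≤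
    N ^ 4 * (2 + Real.exp (2 * ϑ)) ^ 2 * Real.exp (-(s * η / 4 / α ^ 2)) := by
  obtain ⟨β, hβ⟩ : ∃ β, β = η / α ^ 2 := ⟨_, rfl⟩
  have hβ0 : 0 < β := by rw [hβ]; positivity
  have e5 : s * η / 4 / α ^ 2 = s * β / 4 := by rw [hβ]; ring
  rw [e5, ← hβ]
  rw [← hβ] at hy
  have h1 : 2 * ϑ * P ≤ β / 4 := by
    rw [hy, div_le_iff₀ hβ0] at hy4
    linarith
  have hJ0 : (0 : ℝ) ≤ J := Nat.cast_nonneg _
  have hj1 : (j : ℝ) ≤ J := by exact_mod_cast hjJ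
  have hj0 : (0 : ℝ) ≤ j := Nat.cast_nonneg _
  obtain ⟨g, hg⟩ : ∃ g, g = 1 / (1 + α) := ⟨_, rfl⟩
  have hg1 : g ≤ 1 := by
    rw [hg, div_le_one (by positivity)]; linarith
  have hg2 : 1 - α ≤ g := by
    rw [hg, le_div_iff₀ (by positivity)]; nlinarith
  rw [← hg]
  have h2 : (j : ℝ) + 1 / 2 ≤ (g - s) * (j + 1) := by
    have a1 : (1 - α - s) * ((j : ℝ) + 1) ≤ (g - s) * (j + 1) :=
      mul_le_mul_of_nonneg_right (by linarith) (by positivity)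
    have a2 : (α + s) * ((j : ℝ) + 1) ≤ (α + s) * (J + 1) :=
      mul_le_mul_of_nonneg_left (by linarith) (by positivity)
    nlinarith
  have h3 : 0 ≤ g - s := by
    by_contra hc
    push Not at hc
    have : (g - s) * ((j : ℝ) + 1) < 0 := mul_neg_of_neg_of_pos hc (by positivity)
    linarith
  have h4 : s * (β * j) + -(g - s) * s * ((j + 1) * β - 2 * ϑ * P) ≤ -(s * β / 4) := by
    have b1 : (g - s) * s * (2 * ϑ * P) ≤ 1 * s * (β / 4) := by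
      apply mul_le_mul _ h1 (by positivity) (by positivity)
      exact mul_le_mul_of_nonneg_right (by linarith) hs.le
    have b2 : s * β * ((j : ℝ) + 1 / 2) ≤ s * β * ((g - s) * (j + 1)) :=
      mul_le_mul_of_nonneg_left h2 (by positivity)
    nlinarith
  calc Real.exp (s * (β * j)) * ((N ^ 2) ^ 2 * (2 + Real.exp (2 * ϑ)) ^ 2 *
      Real.exp (-(g - s) * s * ((j + 1) * β - 2 * ϑ * P)))
      = N ^ 4 * (2 + Real.exp (2 * ϑ)) ^ 2 * Real.exp (s * (β * j) +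
        -(g - s) * s * ((j + 1) * β - 2 * ϑ * P)) := by
        rw [Real.exp_add]; ring
    _ ≤ _ := by
        apply mul_le_mul_of_nonneg_left (Real.exp_le_exp.2 h4)
        positivity

end Pool.Agent.H73.CEL
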