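import Pool.Agent.H73.CEL.BSAa

/-!
# Row BSA: the inequality for small parameter
-/

set_option autoImplicit false

open MeasureTheory ProbabilityTheory Filter Topology Pool.Agent.H95 Pool.Agent.H95.Cop
open Pool.Agent.H98.CE

namespace Pool.Agent.H73.CEL

/-- the main factor -/
noncomputable def GG (d ϑ η : ℝ) (J j : ℕ) (α : ℝ) (N : ℝ) : ℝ :=
  (1 - 2 * ϑ / η * (α ^ 2 * (N + N ^ 2))) / (j + 2 + 2 * ϑ / η * (α ^ 2 * (N + N ^ 2))) *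
  (1 - ((J : ℝ) + 2) / (2 * ϑ / η * (α ^ 2 * (N + N ^ 2)) * N ^ 3)) *
  (N / (N + 1)) ^ 2 * Real.exp (3 * (Real.log α * α)) *
  Real.exp (-(2 * ϑ * d * (α ^ 2 * (N + N ^ 2)))) * (1 - N ^ 3 * Real.exp (-ϑ * N / 4))

lemma core {α d ϑ s e e1 η N y B : ℝ} {J j : ℕ} (hϑ : 0 < ϑ) (hs : 0 < s)
    (hsJ : s * (4 * (J + 1)) ≤ 1) (he : 0 ≤ e) (he1 : 0 < e1) (he1' : e1 < 1) (hη : 0 < η)
    (hα : 0 < α) (hα16 : α ≤ 1 / 16) (hαJ : α * (J + 1) ≤ 1 / 4) (hN : 1 ≤ N)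
    (hN2 : α * N ^ 2 ≤ 4) (hB : B = (2 + Real.exp (2 * ϑ)) ^ 2)
    (hy : y = 2 * ϑ * (N + N ^ 2) / (η / α ^ 2)) (hy4 : y ≤ 1 / 4)
    (hz : ((J : ℝ) + 2) / (y * N ^ 3) < 1) (hq : 0 ≤ 1 - N ^ 3 * Real.exp (-ϑ * N / 4))
    (hjJ : j ≤ J)
    (hm : e / 2 * (Real.exp (-d * (j + 2) * η) / (j + 2)) ≤
      e1 / 2 * (Real.exp (-4 * ϑ) * (Real.exp (-d * (j + 2) * η) * GG d ϑ η J j α N)) -
      η * B / (2 * ϑ) * ((1 / α) ^ 3 * Real.exp (-(s * η / 4 / α ^ 2)))) :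
    0 ≤ (((N ^ 2) ^ 2) ^ (1 / (1 + α)) * (e1 * α / 2) ^ (1 / (1 + α)) /
          ((j + 2) * (η / α ^ 2) / (2 * ϑ) + (N + N ^ 2)) *
        (Real.exp (-4 * ϑ) * Real.exp (-(d * α ^ 2) * ((j + 2) * (η / α ^ 2) +
          2 * ϑ * (N + N ^ 2))) * (1 - N ^ 3 * Real.exp (-ϑ * N / 4))) -
        Real.exp (s * (η / α ^ 2 * j)) * ((N ^ 2) ^ 2 * (2 + Real.exp (2 * ϑ)) ^ 2 *
          Real.exp (-(1 / (1 + α) - s) * s * ((j + 1) * (η / α ^ 2) -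
            2 * ϑ * (N + N ^ 2))))) ∧
    N ^ 3 * (N + N ^ 2) * (α / 2 * (e * Real.exp (-d * (j + 2) * η) / (j + 2))) ≤
      (1 / y - 1) * (N ^ 3 - ((J : ℝ) + 2) / y) *
      (((N ^ 2) ^ 2) ^ (1 / (1 + α)) * (e1 * α / 2) ^ (1 / (1 + α)) /
          ((j + 2) * (η / α ^ 2) / (2 * ϑ) + (N + N ^ 2)) *
        (Real.exp (-4 * ϑ) * Real.exp (-(d * α ^ 2) * ((j + 2) * (η / α ^ 2) +
          2 * ϑ * (N + N ^ 2))) * (1 - N ^ 3 * Real.exp (-ϑ * N / 4))) -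
        Real.exp (s * (η / α ^ 2 * j)) * ((N ^ 2) ^ 2 * (2 + Real.exp (2 * ϑ)) ^ 2 *
          Real.exp (-(1 / (1 + α) - s) * s * ((j + 1) * (η / α ^ 2) -
            2 * ϑ * (N + N ^ 2))))) := by
  have hN0 : 0 < N := by linarith
  have hA := core_A hα hα16 hN hN2
  have hBB := core_B (N := N) (P := N + N ^ 2) (j := j) hϑ hs hsJ hη hα hαJ hN (by positivity)
    hy hy4 hjJ
  obtain ⟨E, hE⟩ : ∃ E, E = Real.exp (s * (η / α ^ 2 * j)) * ((N ^ 2) ^ 2 *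
    (2 + Real.exp (2 * ϑ)) ^ 2 * Real.exp (-(1 / (1 + α) - s) * s * ((j + 1) * (η / α ^ 2) -
            2 * ϑ * (N + N ^ 2)))) := ⟨_, rfl⟩
  rw [← hE, ← hB] at hBB
  rw [← hE]
  obtain ⟨F, hF⟩ : ∃ F, F = Real.exp (-(s * η / 4 / α ^ 2)) := ⟨_, rfl⟩
  rw [← hF] at hBB hm
  have hF0 : 0 < F := by rw [hF]; exact Real.exp_pos _
  have hB0 : 0 < B := by rw [hB]; positivity
  obtain ⟨W, hW⟩ : ∃ W, W = ((N ^ 2) ^ 2) ^ (1 / (1 + α)) := ⟨_, rfl⟩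
  rw [← hW] at hA
  rw [← hW]
  obtain ⟨w, hw⟩ : ∃ w, w = Real.exp (3 * (Real.log α * α)) := ⟨_, rfl⟩
  have hw0 : 0 < w := by rw [hw]; exact Real.exp_pos _
  rw [← hw] at hA
  obtain ⟨X, hX⟩ : ∃ X, X = Real.exp (-d * (j + 2) * η) := ⟨_, rfl⟩
  have hX0 : 0 < X := by rw [hX]; exact Real.exp_pos _
  rw [← hX] at hm
  rw [← hX]
  obtain ⟨E4, hE4⟩ : ∃ E4, E4 = Real.exp (-4 * ϑ) := ⟨_, rfl⟩
  have hE40 : 0 < E4 := by rw [hE4]; exact Real.exp_pos _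
  rw [← hE4] at hm
  rw [← hE4]
  obtain ⟨E2, hE2⟩ : ∃ E2, E2 = Real.exp (-(2 * ϑ * d * (α ^ 2 * (N + N ^ 2)))) := ⟨_, rfl⟩
  have hE20 : 0 < E2 := by rw [hE2]; exact Real.exp_pos _
  have hEd : Real.exp (-(d * α ^ 2) * ((j + 2) * (η / α ^ 2) + 2 * ϑ * (N + N ^ 2))) =
      X * E2 := by
    rw [hX, hE2, ← Real.exp_add]
    congr 1
    field_simp
    ring
  rw [hEd]
  obtain ⟨q, hqq⟩ : ∃ q, q = 1 - N ^ 3 * Real.exp (-ϑ * N / 4) := ⟨_, rfl⟩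
  rw [← hqq] at hq
  rw [← hqq]
  have hy' : y = 2 * ϑ / η * (α ^ 2 * (N + N ^ 2)) := by
    rw [hy]; field_simp
  have hy0 : 0 < y := by rw [hy']; positivity
  obtain ⟨z, hzz⟩ : ∃ z, z = ((J : ℝ) + 2) / (y * N ^ 3) := ⟨_, rfl⟩
  have hG : GG d ϑ η J j α N = (1 - y) / (j + 2 + y) * (1 - z) * (N / (N + 1)) ^ 2 * w *
      E2 * q := by
    unfold GG
    rw [hzz, hw, hE2, hqq, hy']
  rw [hG] at hm
  rw [← hzz] at hz
  have hβ : η / α ^ 2 = 2 * ϑ * (N + N ^ 2) / y := by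
    rw [hy]; field_simp
  have hD : (j + 2) * (η / α ^ 2) / (2 * ϑ) + (N + N ^ 2) = N * (N + 1) * (j + 2 + y) / y := by
    rw [hβ]; field_simp; ring
  rw [hD]
  have hκ : e1 * α / 2 ≤ (e1 * α / 2) ^ (1 / (1 + α)) := by
    have h1 : (e1 * α / 2) ^ (1 : ℝ) ≤ (e1 * α / 2) ^ (1 / (1 + α)) := by
      apply Real.rpow_le_rpow_of_exponent_ge (by positivity)
      · have h2 : e1 * α ≤ 1 * (1 / 16) := mul_le_mul he1'.le hα16 hα.le zero_le_one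
        linarith
      · rw [div_le_one (by positivity)]; linarith
    rwa [Real.rpow_one] at h1
  obtain ⟨κ', hκ'⟩ : ∃ κ', κ' = (e1 * α / 2) ^ (1 / (1 + α)) := ⟨_, rfl⟩
  rw [← hκ'] at hκ
  rw [← hκ']
  have hc : (1 / y - 1) * (N ^ 3 - ((J : ℝ) + 2) / y) = (1 - y) / y * (N ^ 3 * (1 - z)) := by
    rw [hzz]; field_simp
  have hz0 : 0 < z := by rw [hzz]; positivity
  have hc0 : 0 < (1 - y) / y * (N ^ 3 * (1 - z)) := by
    apply mul_pos (div_pos (by linarith) hy0)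
    exact mul_pos (by positivity) (by linarith)
  rw [hc]
  obtain ⟨c, hcc⟩ : ∃ c, c = (1 - y) / y * (N ^ 3 * (1 - z)) := ⟨_, rfl⟩
  rw [← hcc] at hc0
  rw [← hcc]
  -- the main term
  have hM : N ^ 4 * w * (e1 * α / 2) / (N * (N + 1) * (j + 2 + y) / y) * (E4 * (X * E2) * q) ≤
      W * κ' / (N * (N + 1) * (j + 2 + y) / y) * (E4 * (X * E2) * q) := by
    apply mul_le_mul_of_nonneg_right _ (by positivity)
    apply div_le_div_of_nonneg_right _ (by positivity)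
    exact mul_le_mul hA hκ (by positivity) ((by positivity : (0 : ℝ) ≤ N ^ 4 * w).trans hA)
  have hC : c * (N ^ 4 * w * (e1 * α / 2) / (N * (N + 1) * (j + 2 + y) / y) *
      (E4 * (X * E2) * q)) = N ^ 3 * (N + N ^ 2) * α * (e1 / 2 * (E4 * (X * ((1 - y) /
      (j + 2 + y) * (1 - z) * (N / (N + 1)) ^ 2 * w * E2 * q)))) := by
    rw [hcc, show N + N ^ 2 = N * (N + 1) by ring]
    have : (0 : ℝ) < j + 2 + y := by positivity
    field_simp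
  have hDD : c * (N ^ 4 * B * F) ≤ N ^ 3 * (N + N ^ 2) * α * (η * B / (2 * ϑ) *
      ((1 / α) ^ 3 * F)) := by
    have c1 : c ≤ 1 / y * N ^ 3 := by
      rw [hcc]
      apply mul_le_mul
      · exact div_le_div_of_nonneg_right (by linarith) hy0.le
      · exact mul_le_of_le_one_right (by positivity) (by linarith)
      · exact mul_nonneg (by positivity) (by linarith)
      · positivity
    calc c * (N ^ 4 * B * F) ≤ 1 / y * N ^ 3 * (N ^ 4 * B * F) :=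
          mul_le_mul_of_nonneg_right c1 (by positivity)
      _ = N ^ 3 * (1 / y) * B * F * N ^ 4 := by ring
      _ ≤ N ^ 3 * (1 / y) * B * F * (N + N ^ 2) ^ 2 := by
          apply mul_le_mul_of_nonneg_left _ (by positivity)
          calc N ^ 4 = (N ^ 2) ^ 2 := by ring
            _ ≤ (N + N ^ 2) ^ 2 := pow_le_pow_left₀ (by positivity) (by linarith) 2
      _ = _ := by
          rw [hy']
          field_simp
  have hfin : N ^ 3 * (N + N ^ 2) * (α / 2 * (e * X / (j + 2))) ≤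
      c * (N ^ 4 * w * (e1 * α / 2) / (N * (N + 1) * (j + 2 + y) / y) * (E4 * (X * E2) * q) -
        N ^ 4 * B * F) := by
    have h1 := mul_le_mul_of_nonneg_left hm
      (show 0 ≤ N ^ 3 * (N + N ^ 2) * α by positivity)
    rw [mul_sub, hC]
    have e3 : N ^ 3 * (N + N ^ 2) * (α / 2 * (e * X / (j + 2))) =
      N ^ 3 * (N + N ^ 2) * α * (e / 2 * (X / (j + 2))) := by ring
    rw [e3]
    rw [mul_sub] at h1
    linarith
  have hle : N ^ 4 * w * (e1 * α / 2) / (N * (N + 1) * (j + 2 + y) / y) *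
      (E4 * (X * E2) * q) - N ^ 4 * B * F ≤
      W * κ' / (N * (N + 1) * (j + 2 + y) / y) * (E4 * (X * E2) * q) - E := by linarith
  have h0 : 0 ≤ N ^ 4 * w * (e1 * α / 2) / (N * (N + 1) * (j + 2 + y) / y) *
      (E4 * (X * E2) * q) - N ^ 4 * B * F := by
    by_contra hneg
    push Not at hneg
    have := mul_neg_of_pos_of_neg hc0 hneg
    have h2 : 0 ≤ N ^ 3 * (N + N ^ 2) * (α / 2 * (e * X / (j + 2))) := by positivity
    linarith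
  exact ⟨h0.trans hle, hfin.trans (mul_le_mul_of_nonneg_left hle hc0.le)⟩

end Pool.Agent.H73.CEL
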